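import Pool.Agent.K1H40.CT.Stm

/-! Piece CT-MIN of project CT (helper40): minors of a bilinear form over an extension. -/

set_option autoImplicit false

namespace Pool.Agent.K1H24.CT

open Pool.Agent.K1H40.CT

universe u w

theorem det_sum_zero {ι : Type} [Fintype ι] [DecidableEq ι] {E : Type w} [CommRing E] {m : ℕ}
    (P : Fin m → ι → E) (v : ι → Fin m → E)
    (h : ∀ ρ : Fin m → ι, (Matrix.of fun a => v (ρ a)).det = 0) :
    (Matrix.of fun a => ∑ i, P a i • v i).det = 0 := by
  have h1 := (Matrix.detRowAlternating (R := E) (n := Fin m)).toMultilinearMap.map_sum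
    (fun a i => P a i • v i)
  have h2 : (Matrix.of fun a => ∑ i, P a i • v i).det =
      (Matrix.detRowAlternating (R := E) (n := Fin m)).toMultilinearMap
        (fun a => ∑ i, P a i • v i) := rfl
  rw [h2, h1]
  apply Finset.sum_eq_zero
  intro ρ _
  rw [MultilinearMap.map_smul_univ]
  have h3 : (Matrix.detRowAlternating (R := E) (n := Fin m)).toMultilinearMap
      (fun a => v (ρ a)) = (Matrix.of fun a => v (ρ a)).det := rfl
  rw [h3, h ρ, smul_zero]

theorem t_MIN : S_MIN.{u, w} := by
  intro R _ n z hz E _ _ U W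
  have h1 : (Matrix.of fun r s => BB z (U r) (W s)) =
      Matrix.of fun r => ∑ p : Fin n × Fin n, U r p.1 p.2 •
        (fun s => ∑ q : Fin n × Fin n, W s q.1 q.2 * algebraMap R E (z p.1 p.2 q.1 q.2)) := by
    ext r s
    simp only [Matrix.of_apply, BB, Finset.sum_apply, Pi.smul_apply, smul_eq_mul,
      Fintype.sum_prod_type, Finset.mul_sum]
    refine Finset.sum_congr rfl fun i _ => Finset.sum_congr rfl fun j _ =>
      Finset.sum_congr rfl fun k _ => Finset.sum_congr rfl fun l _ => ?_
    rw [Algebra.smul_def]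
    ring
  rw [h1]
  apply det_sum_zero
  intro ρ
  rw [← Matrix.det_transpose]
  have h2 : (Matrix.of fun a => (fun s => ∑ q : Fin n × Fin n, W s q.1 q.2 *
        algebraMap R E (z (ρ a).1 (ρ a).2 q.1 q.2))).transpose =
      Matrix.of fun s => ∑ q : Fin n × Fin n, W s q.1 q.2 •
        (fun a => algebraMap R E (z (ρ a).1 (ρ a).2 q.1 q.2)) := by
    ext s a
    simp only [Matrix.transpose_apply, Matrix.of_apply, Finset.sum_apply, Pi.smul_apply,
      smul_eq_mul]
  rw [h2]
  apply det_sum_zero
  intro γ
  have h3 : (Matrix.of fun a => (fun a' => algebraMap R E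
        (z (ρ a').1 (ρ a').2 (γ a).1 (γ a).2))) =
      ((algebraMap R E).mapMatrix
        (Matrix.of fun i j => z (ρ i).1 (ρ i).2 (γ j).1 (γ j).2)).transpose := by
    ext s a
    simp only [Matrix.transpose_apply, Matrix.of_apply, RingHom.mapMatrix_apply, Matrix.map_apply]
  rw [h3, Matrix.det_transpose, ← RingHom.map_det, hz.minor ρ γ, map_zero]

end Pool.Agent.K1H24.CT
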